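import Pool.Agent.Lib.MP_3b7186_pr.Exist

/-!
# The loop contracting random walk is transient on every transient graph
-/

namespace Pool.Agent.Results.MP_3b7186_pr.Transient

open MeasureTheory Pool.Agent.Lib.MP_3b7186_pr

universe u v w

/-- On every infinite connected locally finite multigraph without self-loops on which simple
random walk is transient, the loop contracting random walk started at any vertex `x` is
transient: such walks exist, and for each of them the paths `P_i` almost surely converge to an
infinite path. -/
theorem result {V : Type u} {E : Type v} (G : MGraph V E) [Infinite V] (hG : G.Connected)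
    (htrans : G.SRWTransient) (x : V) :
    (∃ (Ω : Type v) (_ : MeasurableSpace Ω) (P : Measure Ω) (ξ : ℕ → Ω → E),
      IsProbabilityMeasure P ∧ IsLCRW G x P ξ) ∧
    ∀ (Ω : Type w) [MeasurableSpace Ω] (P : Measure Ω) [IsProbabilityMeasure P]
      (ξ : ℕ → Ω → E), IsLCRW G x P ξ →
      ∀ᵐ ω ∂P, ConvergesToInfinitePath fun n => (G.stateOf x (hist ξ n ω)).path :=
  ⟨exists_isLCRW G hG x, fun _ _ _ _ _ hL => ae_converges hG htrans hL⟩

end Pool.Agent.Results.MP_3b7186_pr.Transient
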